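import Pool.Agent.Y75.MQ.Stm
import Pool.Agent.Y483.GTorus

/-!
Several natural transformations in each degree, with values in a functor of groups: linear
independence on `ℤ^j` in degree `j` is the same as joint injectivity on the free abelian groups of
finite rank.
-/

namespace Q198.MG

open Finsupp CategoryTheory DirectSum Pool.Agent.Y483 Pool.Agent.Y110.KW Pool.Agent.Y75.MQ

theorem ker_Zn_of_jointly {B : Type} (d : B → ℕ) {E : GrpCat.{0} ⥤ ModuleCat.{0} ℚ}
    (α : ∀ b : B, hq (d b) ⟶ E)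
    (h : ∀ (j : ℕ) (x : HB d (Zn j)), (∀ b, d b ≠ j → x b = 0) → tb d α (Zn j) x = 0 → x = 0)
    (n : ℕ) : LinearMap.ker (tb d α (Zn n)) = ⊥ := by
  classical
  rw [eq_bot_iff]
  intro x hx
  rw [Submodule.mem_bot]
  by_contra hne
  have hex : ∃ j : ℕ, ∃ i : B, d i = j ∧ x i ≠ 0 := by
    by_contra hcon
    push Not at hcon
    apply hne
    apply DFunLike.ext
    intro i
    exact hcon (d i) i rfl
  obtain ⟨i, hi, hxi⟩ := Nat.find_spec hex
  have hmin : ∀ i' : B, d i' < d i → x i' = 0 := by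
    intro i' hi'
    by_contra hcon
    rw [hi] at hi'
    exact Nat.find_min hex hi' ⟨i', rfl, hcon⟩
  obtain ⟨v, hv⟩ := exists_fv (x i) hxi
  apply hv
  have h1 := h (d i) (hbMap d (fvZ v) x) ?_ (tb_map d α _ hx)
  · rw [← hbMap_apply, h1]
    rfl
  · intro k hk
    rw [hbMap_apply]
    rcases Nat.lt_or_gt_of_ne hk with hlt | hgt
    · rw [hmin k hlt, map_zero]
    · exact hq_eq_zero hgt _

variable {I : ℕ → Type} {E : GrpCat.{0} ⥤ ModuleCat.{0} ℚ} (α : ∀ j : ℕ, I j → (hq j ⟶ E))

/-- The family indexed by pairs. -/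
def fam (p : Σ j, I j) : hq (Sigma.fst p) ⟶ E := α p.1 p.2

/-- The component of index `p`. -/
noncomputable def appP (p : Σ j, I j) (G : Type) [Group G] :
    HQ p.1 G →ₗ[ℚ] E.obj (GrpCat.of G) := ((α p.1 p.2).app (GrpCat.of G)).hom

/-- The component of degree `j` and index `i`. -/
noncomputable def appE (j : ℕ) (i : I j) (G : Type) [Group G] :
    HQ j G →ₗ[ℚ] E.obj (GrpCat.of G) := appP α ⟨j, i⟩ G

theorem tb_ofP [inst : DecidableEq (Σ j, I j)] (G : Type) [Group G] (p : Σ j, I j)
    (y : HQ p.1 G) :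
    tb (Sigma.fst : (Σ j, I j) → ℕ) (fam α) G
      (DirectSum.of (fun p : (Σ j, I j) => HQ p.1 G) p y) = appP α p G y := by
  have h : inst = fun a b => Classical.propDecidable (a = b) := Subsingleton.elim _ _
  subst h
  exact tb_of (Sigma.fst : (Σ j, I j) → ℕ) (fam α) G p y

theorem ker_Zn_of_li (h : ∀ j, LinearIndependent ℚ (fun i : I j => appE α j i (Zn j)))
    (n : ℕ) : LinearMap.ker (tb (Sigma.fst : (Σ j, I j) → ℕ) (fam α) (Zn n)) = ⊥ := by
  classical
  apply ker_Zn_of_jointly
  intro j x hx h0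
  obtain ⟨t, ht⟩ := exists_top j
  choose c hc using fun i : I j => hq_line t ht (x ⟨j, i⟩)
  have hinj : Function.Injective (fun i : I j => (⟨j, i⟩ : Σ j, I j)) := sigma_mk_injective
  have hsum : ∑ i ∈ (DFinsupp.support x).preimage (fun i : I j => (⟨j, i⟩ : Σ j, I j)) hinj.injOn,
      appE α j i (Zn j) (x ⟨j, i⟩) = 0 := by
    unfold appE
    rw [Finset.sum_preimage (fun i : I j => (⟨j, i⟩ : Σ j, I j)) (DFinsupp.support x) hinj.injOn
      (fun p => appP α p (Zn j) (x p))]
    · rw [← h0]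
      conv_rhs => rw [← DirectSum.sum_support_of x]
      rw [map_sum]
      apply Finset.sum_congr rfl
      intro p _
      rw [tb_ofP]
    · rintro ⟨k, p⟩ _ hp
      have hk : k ≠ j := by
        rintro rfl
        exact hp ⟨p, rfl⟩
      rw [hx ⟨k, p⟩ hk, map_zero]
  have hli := linearIndependent_iff'.mp (h j)
    ((DFinsupp.support x).preimage (fun i : I j => (⟨j, i⟩ : Σ j, I j)) hinj.injOn) c ?_
  · apply DFunLike.ext
    rintro ⟨k, i⟩
    by_cases hk : k = j
    · subst hk
      change x ⟨k, i⟩ = 0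
      by_cases hi : x ⟨k, i⟩ = 0
      · exact hi
      · rw [hc, hli i (Finset.mem_preimage.mpr (DFinsupp.mem_support_iff.mpr hi)), zero_smul]
    · exact hx ⟨k, i⟩ hk
  · apply LinearMap.ext
    intro y
    obtain ⟨a, rfl⟩ := hq_line t ht y
    rw [LinearMap.zero_apply, map_smul, LinearMap.sum_apply]
    have h2 : ∑ i ∈ (DFinsupp.support x).preimage (fun i : I j => (⟨j, i⟩ : Σ j, I j)) hinj.injOn,
        (c i • appE α j i (Zn j)) t = 0 := by
      rw [← hsum]
      apply Finset.sum_congr rfl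
      intro i _
      rw [LinearMap.smul_apply, hc i, map_smul]
    rw [h2, smul_zero]

/-- The converse. -/
theorem li_of_ker_Zn (j : ℕ)
    (h : LinearMap.ker (tb (Sigma.fst : (Σ j, I j) → ℕ) (fam α) (Zn j)) = ⊥) :
    LinearIndependent ℚ (fun i : I j => appE α j i (Zn j)) := by
  classical
  rw [linearIndependent_iff']
  intro s g hg i hi
  obtain ⟨t, ht⟩ := exists_top j
  have h1 : ∑ k ∈ s, DirectSum.of (fun p : (Σ j, I j) => HQ p.1 (Zn j)) ⟨j, k⟩ (g k • t) ∈
      LinearMap.ker (tb (Sigma.fst : (Σ j, I j) → ℕ) (fam α) (Zn j)) := by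
    rw [LinearMap.mem_ker, map_sum]
    have h2 := DFunLike.congr_fun hg t
    rw [LinearMap.sum_apply, LinearMap.zero_apply] at h2
    rw [← h2]
    apply Finset.sum_congr rfl
    intro k _
    rw [tb_ofP, map_smul, LinearMap.smul_apply]
    rfl
  rw [h, Submodule.mem_bot] at h1
  have h2 := congrArg (fun u : HB (Sigma.fst : (Σ j, I j) → ℕ) (Zn j) => u ⟨j, i⟩) h1
  have h3 : (∑ k ∈ s, DirectSum.of (fun p : (Σ j, I j) => HQ p.1 (Zn j)) ⟨j, k⟩ (g k • t))
      ⟨j, i⟩ = g i • t := by
    rw [DirectSum.sum_apply, Finset.sum_eq_single i]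
    · rw [DirectSum.of_eq_same]
    · intro k _ hk
      rw [DirectSum.of_eq_of_ne]
      intro h'
      exact hk (sigma_mk_injective h').symm
    · intro h'
      exact absurd hi h'
  have h4 : g i • t = 0 := by
    rw [← h3]
    exact h2
  rcases smul_eq_zero.mp h4 with h5 | h5
  · exact h5
  · exact absurd h5 ht

/-- **Criterion.** For a functor with transfers, linear independence on `ℤ^j` in degree `j` is the
same as injectivity on all the groups `F / [R, R]`. -/
theorem li_iff (hE : HasTransfers E) :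
    (∀ j, LinearIndependent ℚ fun i : I j => ((α j i).app (zn j)).hom) ↔
      ∀ (X : Type) (R : Subgroup (FreeGroup X)) [R.Normal], kerFam (fam α) (modComm R) = ⊥ := by
  rw [← fam_iff hE (fam α)]
  constructor
  · intro h n
    exact ker_Zn_of_li α h n
  · intro h j
    exact li_of_ker_Zn α j (h j)

end Q198.MG
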